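import Mathlib

/-!
# MP_610dff_co: `MOF(G) ≥ n - μ(G)` when `G - W` is a comparability graph for some barrier `W`
-/

namespace Pool.Agent.Results.MP_610dff_co.BarrierComparability

variable {V : Type}

/-- `D` is an orientation of `G`. -/
def IsOrient (G : SimpleGraph V) (D : V → V → Prop) : Prop :=
  (∀ u v, G.Adj u v ↔ (D u v ∨ D v u)) ∧ ∀ u v, D u v → ¬ D v u

/-- The vertices coloured in the end: the least set containing `S` and closed under the rule: a
coloured vertex all of whose out-neighbours except `v` are coloured colours `v`. -/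
inductive Col (D : V → V → Prop) (S : Finset V) : V → Prop
  | base (v : V) : v ∈ S → Col D S v
  | force (u v : V) : Col D S u → D u v → (∀ w, D u w → w ≠ v → Col D S w) → Col D S v

/-- oriented forcing number -/
noncomputable def F (D : V → V → Prop) : ℕ :=
  sInf {k | ∃ S : Finset V, S.card = k ∧ ∀ v, Col D S v}

/-- maximum oriented forcing number -/
noncomputable def MOF (G : SimpleGraph V) : ℕ := sSup {k | ∃ D, IsOrient G D ∧ F D = k}

/-- `muOff G W`: maximum number of pairwise disjoint edges of `G - W`. -/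
noncomputable def muOff (G : SimpleGraph V) (W : Finset V) : ℕ :=
  sSup {k | ∃ f : Fin k × Bool → V, Function.Injective f ∧ (∀ i, G.Adj (f (i, false)) (f (i, true))) ∧
    ∀ x, f x ∉ W}

/-- matching number -/
noncomputable def mu (G : SimpleGraph V) : ℕ := muOff G ∅

/-- stages of the forcing process -/
def T (D : V → V → Prop) (S : Finset V) : ℕ → Set V
  | 0 => {v | v ∈ S}
  | k + 1 => {v | v ∈ T D S k ∨ ∃ u ∈ T D S k, D u v ∧ ∀ w, D u w → w ≠ v → w ∈ T D S k}

theorem T_mono (D : V → V → Prop) (S : Finset V) {k l : ℕ} (h : k ≤ l) : T D S k ⊆ T D S l := by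
  induction h with
  | refl => exact fun _ h => h
  | step _ ih => exact fun x hx => Or.inl (ih hx)

theorem exists_T [Fintype V] (D : V → V → Prop) (S : Finset V) {v : V} (h : Col D S v) :
    ∃ k, v ∈ T D S k := by
  classical
  induction h with
  | base v hv => exact ⟨0, hv⟩
  | force u v _ huv _ ihu ihw =>
    obtain ⟨k, hk⟩ := ihu
    choose g hg using ihw
    let m := Finset.univ.sup fun w => if h : D u w ∧ w ≠ v then g w h.1 h.2 else 0
    refine ⟨max k m + 1, Or.inr ⟨u, T_mono D S (le_max_left _ _) hk, huv, ?_⟩⟩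
    intro w h1 h2
    have h3 : g w h1 h2 ≤ m := by
      have := Finset.le_sup (f := fun w => if h : D u w ∧ w ≠ v then g w h.1 h.2 else 0)
        (Finset.mem_univ w)
      simpa [h1, h2] using this
    exact T_mono D S (h3.trans (le_max_right _ _)) (hg w h1 h2)

theorem mu_bdd [Fintype V] (G : SimpleGraph V) (W : Finset V) :
    BddAbove {k | ∃ f : Fin k × Bool → V, Function.Injective f ∧
      (∀ i, G.Adj (f (i, false)) (f (i, true))) ∧ ∀ x, f x ∉ W} := by
  refine ⟨Fintype.card V, ?_⟩
  rintro k ⟨f, hf, -⟩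
  have := Fintype.card_le_of_injective f hf
  simp at this
  omega

/-- If `W` is a set of vertices with `μ(G) = |W| + μ(G - W)` (for instance the set `A(G)` of the
Gallai-Edmonds decomposition, or the empty set) and `G - W` is a comparability graph, then
`MOF(G) ≥ n - μ(G)`. -/
theorem result (V : Type) [Fintype V] [DecidableEq V] (G : SimpleGraph V) (W : Finset V)
    (hW : mu G = W.card + muOff G W) (R : V → V → Prop)
    (hadj : ∀ u v, u ∉ W → v ∉ W → (G.Adj u v ↔ (R u v ∨ R v u)))
    (hasym : ∀ u v, u ∉ W → v ∉ W → R u v → ¬ R v u)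
    (htrans : ∀ u v w, u ∉ W → v ∉ W → w ∉ W → R u v → R v w → R u w) :
    Fintype.card V - mu G ≤ MOF G := by
  classical
  let D : V → V → Prop := fun u v => G.Adj u v ∧
    ((u ∉ W ∧ v ∉ W ∧ R u v) ∨ (u ∉ W ∧ v ∈ W) ∨
      (u ∈ W ∧ v ∈ W ∧ Fintype.equivFin V u < Fintype.equivFin V v))
  have hD : IsOrient G D := by
    constructor
    · intro u v
      constructor
      · intro h
        have h' := h.symm
        by_cases hu : u ∈ W
        · by_cases hv : v ∈ W
          · have hne : Fintype.equivFin V u ≠ Fintype.equivFin V v := fun h2 =>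
              h.ne ((Fintype.equivFin V).injective h2)
            rcases lt_or_gt_of_ne hne with h3 | h3
            · exact Or.inl ⟨h, Or.inr (Or.inr ⟨hu, hv, h3⟩)⟩
            · exact Or.inr ⟨h', Or.inr (Or.inr ⟨hv, hu, h3⟩)⟩
          · exact Or.inr ⟨h', Or.inr (Or.inl ⟨hv, hu⟩)⟩
        · by_cases hv : v ∈ W
          · exact Or.inl ⟨h, Or.inr (Or.inl ⟨hu, hv⟩)⟩
          · rcases (hadj u v hu hv).1 h with h3 | h3
            · exact Or.inl ⟨h, Or.inl ⟨hu, hv, h3⟩⟩
            · exact Or.inr ⟨h', Or.inl ⟨hv, hu, h3⟩⟩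
      · rintro (h | h)
        · exact h.1
        · exact h.1.symm
    · rintro u v ⟨-, h1⟩ ⟨-, h2⟩
      rcases h1 with ⟨a1, a2, a3⟩ | ⟨a1, a2⟩ | ⟨a1, a2, a3⟩
      · rcases h2 with ⟨b1, b2, b3⟩ | ⟨b1, b2⟩ | ⟨b1, b2, b3⟩
        · exact hasym u v a1 a2 a3 b3
        · exact a1 b2
        · exact a1 b2
      · rcases h2 with ⟨b1, b2, b3⟩ | ⟨b1, b2⟩ | ⟨b1, b2, b3⟩
        · exact b1 a2
        · exact b1 a2
        · exact a1 b2
      · rcases h2 with ⟨b1, b2, b3⟩ | ⟨b1, b2⟩ | ⟨b1, b2, b3⟩
        · exact b1 a2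
        · exact b1 a2
        · exact absurd a3 (lt_asymm b3)
  have key : ∀ S : Finset V, (∀ v, Col D S v) → Fintype.card V ≤ S.card + mu G := by
    intro S hS
    have hex : ∀ v, ∃ k, v ∈ T D S k := fun v => exists_T D S (hS v)
    let t : V → ℕ := fun v => Nat.find (hex v)
    have ht : ∀ v, v ∈ T D S (t v) := fun v => Nat.find_spec (hex v)
    have htmin : ∀ v k, v ∈ T D S k → t v ≤ k := fun v k h => Nat.find_min' (hex v) h
    have hφ : ∀ v, v ∉ S → ∃ u, D u v ∧ t u < t v ∧ ∀ w, D u w → w ≠ v → t w < t v := by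
      intro v hv
      have h1 := ht v
      have h0 : t v ≠ 0 := by
        intro h0
        rw [h0] at h1
        exact hv h1
      obtain ⟨k, hk⟩ := Nat.exists_eq_succ_of_ne_zero h0
      rw [hk] at h1
      rcases h1 with h2 | ⟨u, hu, huv, hw⟩
      · have := htmin v k h2
        omega
      · refine ⟨u, huv, ?_, ?_⟩
        · have := htmin u k hu
          omega
        · intro w h3 h4
          have := htmin w k (hw w h3 h4)
          omega
    choose! φ hφ1 hφ2 hφ3 using hφ
    let U : Finset V := (Finset.univ \ W) \ S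
    have hU : ∀ v, v ∈ U ↔ v ∉ W ∧ v ∉ S := by
      intro v
      simp [U]
    have hRφ : ∀ v, v ∈ U → φ v ∉ W ∧ R (φ v) v := by
      intro v hv
      obtain ⟨h1, h2⟩ := (hU v).1 hv
      have h3 := hφ1 v h2
      rcases h3.2 with ⟨a1, a2, a3⟩ | ⟨a1, a2⟩ | ⟨a1, a2, a3⟩
      · exact ⟨a1, a3⟩
      · exact absurd a2 h1
      · exact absurd a2 h1
    have hφS : ∀ v, v ∈ U → φ v ∈ S := by
      intro v hv
      by_contra hn
      obtain ⟨h1, h2⟩ := (hU v).1 hv
      obtain ⟨h3, h4⟩ := hRφ v hv
      have hvU : φ v ∈ U := (hU _).2 ⟨h3, hn⟩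
      obtain ⟨h5, h6⟩ := hRφ (φ v) hvU
      have h7 : R (φ (φ v)) v := htrans _ _ _ h5 h3 h1 h6 h4
      have h8 : D (φ (φ v)) v := ⟨(hadj _ _ h5 h1).2 (Or.inl h7), Or.inl ⟨h5, h1, h7⟩⟩
      have h9 : v ≠ φ v := by
        intro h
        have := (hφ1 v h2).1
        rw [← h] at this
        exact G.irrefl this
      have h10 := hφ3 (φ v) hn v h8 h9
      have h11 := hφ2 v h2
      omega
    have hφinj : ∀ v ∈ U, ∀ w ∈ U, φ v = φ w → v = w := by
      intro v hv w hw h
      by_contra hne
      obtain ⟨-, h2⟩ := (hU v).1 hv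
      obtain ⟨-, h3⟩ := (hU w).1 hw
      have h4 : D (φ v) w := by rw [h]; exact hφ1 w h3
      have h5 : D (φ w) v := by rw [← h]; exact hφ1 v h2
      have h6 := hφ3 v h2 w h4 (fun h => hne h.symm)
      have h7 := hφ3 w h3 v h5 hne
      omega
    have hcard : U.card ≤ muOff G W := by
      refine le_csSup (mu_bdd G W) ?_
      let e := U.equivFin.symm
      refine ⟨fun x => if x.2 then (e x.1 : V) else φ (e x.1), ?_, ?_, ?_⟩
      · rintro ⟨i, bi⟩ ⟨j, bj⟩ h
        have hi := (e i).2
        have hj := (e j).2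
        cases bi <;> cases bj <;> simp only [Bool.false_eq_true, if_false, if_true] at h
        · have := hφinj _ hi _ hj h
          have := e.injective (Subtype.ext this)
          rw [this]
        · exfalso
          have h1 := hφS _ hi
          rw [h] at h1
          exact ((hU _).1 hj).2 h1
        · exfalso
          have h1 := hφS _ hj
          rw [← h] at h1
          exact ((hU _).1 hi).2 h1
        · have := e.injective (Subtype.ext h)
          rw [this]
      · intro i
        have hi := (e i).2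
        simp only [Bool.false_eq_true, if_false, if_true]
        exact (hφ1 _ ((hU _).1 hi).2).1
      · rintro ⟨i, bi⟩
        have hi := (e i).2
        cases bi <;> simp only [Bool.false_eq_true, if_false, if_true]
        · exact (hRφ _ hi).1
        · exact ((hU _).1 hi).1
    have h1 : Fintype.card V ≤ W.card + (U.card + S.card) := by
      have h2 : (Finset.univ : Finset V) ⊆ W ∪ (U ∪ S) := by
        intro v _
        simp only [Finset.mem_union, hU]
        tauto
      calc Fintype.card V = (Finset.univ : Finset V).card := rfl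
        _ ≤ (W ∪ (U ∪ S)).card := Finset.card_le_card h2
        _ ≤ W.card + (U ∪ S).card := Finset.card_union_le _ _
        _ ≤ W.card + (U.card + S.card) := by
          have := Finset.card_union_le U S
          omega
    rw [hW]
    omega
  have hne : {k | ∃ S : Finset V, S.card = k ∧ ∀ v, Col D S v}.Nonempty :=
    ⟨_, Finset.univ, rfl, fun v => Col.base v (Finset.mem_univ v)⟩
  have h1 : Fintype.card V - mu G ≤ F D := by
    obtain ⟨S, hS1, hS2⟩ := Nat.sInf_mem hne
    have h2 := key S hS2
    have h3 : F D = S.card := hS1.symm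
    omega
  have hb : BddAbove {k | ∃ D, IsOrient G D ∧ F D = k} := by
    refine ⟨Fintype.card V, ?_⟩
    rintro k ⟨D', -, rfl⟩
    exact Nat.sInf_le ⟨Finset.univ, rfl, fun v => Col.base v (Finset.mem_univ v)⟩
  exact h1.trans (le_csSup hb ⟨D, hD, rfl⟩)

end Pool.Agent.Results.MP_610dff_co.BarrierComparability
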